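import Pool.Agent.H29.HMF.Stmts

/-!
# MP_e1ba20, `SL_2(ℤ[√2]) \ (ℍ × ℍ)`: row EQ2, equal flats have monomially related base points
-/

set_option autoImplicit false

open Matrix MeasureTheory

namespace Pool.HMF

theorem eq2_countable_zs : Countable (ℤ√2) := by
  have h : Function.Injective (fun z : ℤ√2 => (z.re, z.im)) := by
    intro a b hab
    exact Zsqrtd.ext (congrArg Prod.fst hab) (congrArg Prod.snd hab)
  exact h.countable

theorem eq2_countable : Countable HM := by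
  have := eq2_countable_zs
  have h : Function.Injective (fun (γ : HM) (i j : Fin 2) => γ.1 i j) := by
    intro a b hab
    apply Subtype.ext
    funext i j
    exact congrFun (congrFun hab i) j
  exact h.countable

/-- the element `dg v` of `SL_2(ℝ)` -/
noncomputable def eq2_dg (v : ℝ) : S2 := ⟨dg v, by
  rw [dg, Matrix.det_diagonal, Fin.prod_univ_two]
  simp [← Real.exp_add]⟩

/-- the image of `γ` at the place `i` -/
noncomputable def eq2_c (hB : BASS) (i : Fin 2) (γ : HM) : S2 := ⟨cm i γ.1, by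
  obtain ⟨_, _, _, h1, _, _, _, _, _, hdet, _⟩ := hB
  rw [hdet, γ.2, h1]⟩

theorem eq2_line (i : Fin 2) (s : Set (Fin 2 → ℝ)) (h : ∀ v ∈ s, ∀ w ∈ s, v i = w i) :
    volume s = 0 := by
  rcases s.eq_empty_or_nonempty with h0 | ⟨w, hw⟩
  · rw [h0]
    exact measure_empty
  · refine measure_mono_null (t := {v | v i = w i}) (fun v hv => h v hv w hw) ?_
    rw [volume_pi]
    exact Measure.pi_hyperplane (fun _ : Fin 2 => (volume : Measure ℝ)) i (w i)

/-- **EQ2**. -/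
theorem eq2_thm (hB : BASS) (hM : MN2S) : EQ2S := by
  intro g g0 hfl
  have := eq2_countable
  by_contra hcon
  push Not at hcon
  have hnull : ∀ γ : HM, volume {v : Fin 2 → ℝ | ∃ y : Fin 2 → ℝ, ∀ i, ∃ k : S2, k.1 * k.1ᵀ = 1 ∧
      ((eq2_c hB i γ * g0 i)⁻¹ * g i : S2).1 * dg (v i) = dg (y i) * k.1} = 0 := by
    intro γ
    have h1 : ∃ i, ¬ Mon false ((eq2_c hB i γ * g0 i)⁻¹ * g i : S2).1 ∧
        ¬ Mon true ((eq2_c hB i γ * g0 i)⁻¹ * g i : S2).1 := by
      by_contra h2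
      push Not at h2
      have h3 : ∀ i, ∃ p, Mon p ((eq2_c hB i γ * g0 i)⁻¹ * g i : S2).1 := by
        intro i
        by_cases h4 : Mon false ((eq2_c hB i γ * g0 i)⁻¹ * g i : S2).1
        · exact ⟨false, h4⟩
        · exact ⟨true, h2 i h4⟩
      choose p hp using h3
      obtain ⟨i, hi⟩ := hcon γ (fun i => (eq2_c hB i γ * g0 i)⁻¹ * g i) p hp
      apply hi
      have h5 : g i = eq2_c hB i γ * g0 i * ((eq2_c hB i γ * g0 i)⁻¹ * g i) := by group
      exact congrArg Subtype.val h5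
    obtain ⟨i, h2, h3⟩ := h1
    apply eq2_line i
    rintro v ⟨y, hv⟩ w ⟨z, hw⟩
    obtain ⟨k, hk, hk2⟩ := hv i
    obtain ⟨l, hl, hl2⟩ := hw i
    exact hM _ h2 h3 _ _ _ _ k l hk hl hk2 hl2
  have hun : (Set.univ : Set (Fin 2 → ℝ)) = ⋃ γ : HM, {v : Fin 2 → ℝ | ∃ y : Fin 2 → ℝ,
      ∀ i, ∃ k : S2, k.1 * k.1ᵀ = 1 ∧
      ((eq2_c hB i γ * g0 i)⁻¹ * g i : S2).1 * dg (v i) = dg (y i) * k.1} := by
    symm
    rw [Set.eq_univ_iff_forall]
    intro v
    have h1 : (fun i => g i * eq2_dg (v i)) ∈ fl g := by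
      refine ⟨1, v, Set.mem_univ _, ?_⟩
      intro i
      refine ⟨1, by simp, ?_⟩
      obtain ⟨_, _, _, _, _, _, _, _, _, _, _, hone, _⟩ := hB
      have h2 : cm i (1 : HM).1 = 1 := hone i
      rw [h2, one_mul]
      show (g i).1 * dg (v i) = (g i).1 * dg (v i) * (1 : Matrix (Fin 2) (Fin 2) ℝ)
      rw [mul_one]
    rw [hfl] at h1
    obtain ⟨γ, y, -, h2⟩ := h1
    rw [Set.mem_iUnion]
    refine ⟨γ, y, ?_⟩
    intro i
    obtain ⟨k, hk, h3⟩ := h2 i
    refine ⟨k, hk, ?_⟩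
    have h4 : g i * eq2_dg (v i) = eq2_c hB i γ * g0 i * eq2_dg (y i) * k := Subtype.ext h3
    have h5 : ((eq2_c hB i γ * g0 i)⁻¹ * g i) * eq2_dg (v i) = eq2_dg (y i) * k := by
      rw [mul_assoc, h4]
      group
    exact congrArg Subtype.val h5
  have h0 : (volume : Measure (Fin 2 → ℝ)) Set.univ ≠ 0 :=
    (isOpen_univ.measure_pos volume ⟨0, trivial⟩).ne'
  apply h0
  rw [hun, measure_iUnion_null_iff]
  exact hnull

end Pool.HMF
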